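import Pool.Agent.Q86.ZeroAlg

set_option autoImplicit false

open Pool.Agent.Q86.FrMod

universe u

/-- There is a Fréchet algebra over which no non-zero Fréchet module is injective. -/
theorem Pool.Agent.Results.MP_5446c4_an.NoInj.result :
    ∃ A : FrechetAlgebra.{0}, ∀ J : FrechetModule.{u, 0} A,
      Nontrivial J.carrier → ¬ IsInjective J :=
  ⟨zeroAlg, fun J hJ => zeroAlg_not_injective J hJ⟩
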